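import Mathlib
import Pool.Agent.H28.SmallInt
import Pool.Agent.H28.SmallIntUp

namespace Pool.Agent.Results.MP_3a192b_co.PolynomialGrowth

/-- The graph `G(𝒜, ε)` of a family `A 0, …, A (m-1)` of subsets of an `n`-element set: two
different indices are adjacent iff the two sets meet in fewer than `ε n` points. -/
def G {m n : ℕ} (A : Fin m → Finset (Fin n)) (ε : ℝ) : SimpleGraph (Fin m) where
  Adj i j := i ≠ j ∧ ((A i ∩ A j).card : ℝ) < ε * n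
  symm := ⟨fun i j h => ⟨h.1.symm, by rw [Finset.inter_comm]; exact h.2⟩⟩
  loopless := ⟨fun _ h => h.1 rfl⟩

/-- The conjecture: for every `c ∈ (0,1)` there are `ε > 0` and `c₁, c₂` with
`χ < c₁ (log m)^{c₂}` for all admissible families. -/
def PolylogConjecture : Prop :=
  ∀ c : ℝ, 0 < c → c < 1 → ∃ ε : ℝ, 0 < ε ∧ ∃ c₁ c₂ : ℝ, ∀ m n : ℕ, 2 ≤ m → 2 ≤ n →
    ∀ A : Fin m → Finset (Fin n), (∀ k, c * n < (A k).card) →
      ∃ k : ℕ, (G A ε).Colorable k ∧ (k : ℝ) < c₁ * Real.log m ^ c₂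

theorem result :
    -- the conjecture fails
    ¬ PolylogConjecture ∧
    -- lower bound, for every `c ≤ 1/2`, every `ε > 0`, and all `n ≥ K log m`
    (∀ c ε : ℝ, 0 < c → c ≤ 1 / 2 → 0 < ε → ∃ δ : ℝ, 0 < δ ∧ ∃ K : ℝ, 0 < K ∧
      ∀ m : ℕ, 2 ≤ m → ∀ n : ℕ, K * Real.log m ≤ n →
        ∃ A : Fin m → Finset (Fin n), (∀ k, c * n < (A k).card) ∧
          ∀ k : ℕ, (G A ε).Colorable k → δ * (m : ℝ) ^ δ ≤ k) ∧
    -- upper bound, the exponent is as small as we like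
    (∀ c δ : ℝ, 0 < c → 0 < δ → ∃ ε : ℝ, 0 < ε ∧ ∃ C : ℝ, 0 < C ∧
      ∀ m : ℕ, 1 ≤ m → ∀ n : ℕ, ∀ A : Fin m → Finset (Fin n), (∀ k, c * n < (A k).card) →
        ∃ k : ℕ, (G A ε).Colorable k ∧ (k : ℝ) ≤ C * (m : ℝ) ^ δ) := by
  have low : ∀ c ε : ℝ, 0 < c → c ≤ 1 / 2 → 0 < ε → ∃ δ : ℝ, 0 < δ ∧ ∃ K : ℝ, 0 < K ∧
      ∀ m : ℕ, 2 ≤ m → ∀ n : ℕ, K * Real.log m ≤ n →
        ∃ A : Fin m → Finset (Fin n), (∀ k, c * n < (A k).card) ∧
          ∀ k : ℕ, (G A ε).Colorable k → δ * (m : ℝ) ^ δ ≤ k := by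
    intro c ε _ hc hε
    obtain ⟨δ, hδ, K, hK, h⟩ := Pool.Agent.H28.SmallInt.lower c ε hc hε
    refine ⟨δ, hδ, K, hK, fun m hm n hn => ?_⟩
    obtain ⟨A, hA1, hA2⟩ := h m hm n hn
    refine ⟨A, hA1, fun k hk => ?_⟩
    obtain ⟨C⟩ := hk
    exact hA2 k C fun i j hij hlt => C.valid ⟨hij, hlt⟩
  refine ⟨?_, low, ?_⟩
  · intro hconj
    obtain ⟨ε, hε, c₁, c₂, h⟩ := hconj (1 / 2) (by norm_num) (by norm_num)
    obtain ⟨δ, hδ, K, hK, hlow⟩ := low (1 / 2) ε (by norm_num) le_rfl hε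
    -- `(log x)^c₂ = o(x^δ)`
    have ho := isLittleO_log_rpow_rpow_atTop c₂ hδ
    have h1 := ho.bound (c := δ / (2 * (|c₁| + 1))) (by positivity)
    have h2 : ∀ᶠ x : ℝ in Filter.atTop, 2 ≤ x := Filter.eventually_ge_atTop 2
    obtain ⟨m, hm⟩ := ((tendsto_natCast_atTop_atTop (R := ℝ)).eventually (h1.and h2)).exists
    obtain ⟨hm1, hm2⟩ := hm
    have hm2' : 2 ≤ m := by exact_mod_cast hm2
    have hlogm : 0 < Real.log m := Real.log_pos (by linarith)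
    obtain ⟨A, hA1, hA2⟩ := hlow m hm2' (⌈K * Real.log m⌉₊ + 2) (by
      push_cast
      have := Nat.le_ceil (K * Real.log m)
      linarith)
    obtain ⟨k, hk1, hk2⟩ := h m (⌈K * Real.log m⌉₊ + 2) hm2' (by omega) A hA1
    have h3 := hA2 k hk1
    rw [Real.norm_of_nonneg (by positivity), Real.norm_of_nonneg (by positivity)] at hm1
    have h4 : c₁ * Real.log m ^ c₂ ≤ (|c₁| + 1) * (δ / (2 * (|c₁| + 1)) * (m : ℝ) ^ δ) := by
      have h5 : c₁ ≤ |c₁| + 1 := by linarith [le_abs_self c₁]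
      calc c₁ * Real.log m ^ c₂ ≤ (|c₁| + 1) * Real.log m ^ c₂ := by gcongr
        _ ≤ _ := by gcongr
    have h6 : (|c₁| + 1) * (δ / (2 * (|c₁| + 1)) * (m : ℝ) ^ δ) = δ * (m : ℝ) ^ δ / 2 := by
      have : |c₁| + 1 ≠ 0 := by positivity
      field_simp
    have h7 : 0 < δ * (m : ℝ) ^ δ := by
      have : (0 : ℝ) < m := by linarith
      positivity
    linarith
  · intro c δ hc hδ
    obtain ⟨ε, hε, C, hC, h⟩ := Pool.Agent.H28.SmallIntUp.upper c δ hc hδ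
    refine ⟨ε, hε, C, hC, fun m hm n A hA => ?_⟩
    obtain ⟨K, hK, f, hf⟩ := h m hm n A hA
    exact ⟨K, ⟨SimpleGraph.Coloring.mk f fun {i j} hij => hf i j hij.1 hij.2⟩, hK⟩

end Pool.Agent.Results.MP_3a192b_co.PolynomialGrowth
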